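import Mathlib

/-!
General facts about Markov bases of the no-three-way interaction model:
existence of a finite Markov basis (Dickson's lemma), existence of minimal ones, and the exchange
argument which turns a three-element fibre with an isolated table into two different minimal
Markov bases.
-/

set_option autoImplicit false

namespace Pool.Agent.Helper56Markov

/-- tables of natural numbers -/
abbrev Tab (I J K : ℕ) := Fin I → Fin J → Fin K → ℕ

/-- integer arrays -/
abbrev Mov (I J K : ℕ) := Fin I → Fin J → Fin K → ℤ

variable {I J K : ℕ}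

/-- the two tables have the same two-way margins -/
def SameM (u v : Tab I J K) : Prop :=
  (∀ i j, ∑ k, u i j k = ∑ k, v i j k) ∧
  (∀ i k, ∑ j, u i j k = ∑ j, v i j k) ∧
  (∀ j k, ∑ i, u i j k = ∑ i, v i j k)

/-- all two-way margins vanish -/
def ZeroM (m : Mov I J K) : Prop :=
  (∀ i j, ∑ k, m i j k = 0) ∧ (∀ i k, ∑ j, m i j k = 0) ∧ (∀ j k, ∑ i, m i j k = 0)

/-- one step of the walk with moves in `B` -/
def Step (B : Finset (Mov I J K)) (w w' : Tab I J K) : Prop :=
  ∃ m ∈ B, (∀ i j k, (w' i j k : ℤ) = (w i j k : ℤ) + m i j k) ∨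
    (∀ i j k, (w' i j k : ℤ) = (w i j k : ℤ) - m i j k)

/-- `B` is a Markov basis -/
def MB (B : Finset (Mov I J K)) : Prop :=
  (∀ m ∈ B, (∀ i j, ∑ k, m i j k = 0) ∧ (∀ i k, ∑ j, m i j k = 0) ∧ (∀ j k, ∑ i, m i j k = 0)) ∧
    ∀ u v : Tab I J K,
      (∀ i j, ∑ k, u i j k = ∑ k, v i j k) →
      (∀ i k, ∑ j, u i j k = ∑ j, v i j k) →
      (∀ j k, ∑ i, u i j k = ∑ i, v i j k) →
      Relation.ReflTransGen
        (fun w w' : Tab I J K =>
          ∃ m ∈ B, (∀ i j k, (w' i j k : ℤ) = (w i j k : ℤ) + m i j k) ∨
            (∀ i j k, (w' i j k : ℤ) = (w i j k : ℤ) - m i j k)) u v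

/-- difference of two tables as an integer array -/
def dif (x y : Tab I J K) : Mov I J K := fun i j k => (x i j k : ℤ) - (y i j k : ℤ)

theorem SameM.symm {u v : Tab I J K} (h : SameM u v) : SameM v u :=
  ⟨fun i j => (h.1 i j).symm, fun i j => (h.2.1 i j).symm, fun i j => (h.2.2 i j).symm⟩

theorem SameM.trans {u v w : Tab I J K} (h : SameM u v) (h' : SameM v w) : SameM u w :=
  ⟨fun i j => (h.1 i j).trans (h'.1 i j), fun i j => (h.2.1 i j).trans (h'.2.1 i j),
    fun i j => (h.2.2 i j).trans (h'.2.2 i j)⟩

theorem dif_zeroM {u v : Tab I J K} (h : SameM u v) : ZeroM (dif u v) := by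
  obtain ⟨h1, h2, h3⟩ := h
  refine ⟨fun i j => ?_, fun i k => ?_, fun j k => ?_⟩
  · have := h1 i j
    simp only [dif, Finset.sum_sub_distrib]
    have h' : (∑ k, (u i j k : ℤ)) = ∑ k, (v i j k : ℤ) := by exact_mod_cast this
    rw [h', sub_self]
  · have := h2 i k
    simp only [dif, Finset.sum_sub_distrib]
    have h' : (∑ j, (u i j k : ℤ)) = ∑ j, (v i j k : ℤ) := by exact_mod_cast this
    rw [h', sub_self]
  · have := h3 j k
    simp only [dif, Finset.sum_sub_distrib]
    have h' : (∑ i, (u i j k : ℤ)) = ∑ i, (v i j k : ℤ) := by exact_mod_cast this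
    rw [h', sub_self]

theorem Step.symm {B : Finset (Mov I J K)} {w w' : Tab I J K} (h : Step B w w') : Step B w' w := by
  obtain ⟨m, hm, h | h⟩ := h
  · exact ⟨m, hm, Or.inr fun i j k => by rw [h i j k]; ring⟩
  · exact ⟨m, hm, Or.inl fun i j k => by rw [h i j k]; ring⟩

theorem reach_symm {B : Finset (Mov I J K)} {u v : Tab I J K}
    (h : Relation.ReflTransGen (Step B) u v) : Relation.ReflTransGen (Step B) v u := by
  induction h with
  | refl => exact Relation.ReflTransGen.refl
  | tail _ h2 ih => exact Relation.ReflTransGen.head h2.symm ih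

/-- A step with moves of zero margins preserves margins. -/
theorem step_same {B : Finset (Mov I J K)} (hB : ∀ m ∈ B, ZeroM m) {w w' : Tab I J K}
    (h : Step B w w') : SameM w' w := by
  obtain ⟨m, hm, h⟩ := h
  obtain ⟨z1, z2, z3⟩ := hB m hm
  rcases h with h | h
  · refine ⟨fun i j => ?_, fun i k => ?_, fun j k => ?_⟩
    · have : (∑ k, (w' i j k : ℤ)) = ∑ k, (w i j k : ℤ) := by
        simp only [h, Finset.sum_add_distrib, z1, add_zero]
      exact_mod_cast this
    · have : (∑ j, (w' i j k : ℤ)) = ∑ j, (w i j k : ℤ) := by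
        simp only [h, Finset.sum_add_distrib, z2, add_zero]
      exact_mod_cast this
    · have : (∑ i, (w' i j k : ℤ)) = ∑ i, (w i j k : ℤ) := by
        simp only [h, Finset.sum_add_distrib, z3, add_zero]
      exact_mod_cast this
  · refine ⟨fun i j => ?_, fun i k => ?_, fun j k => ?_⟩
    · have : (∑ k, (w' i j k : ℤ)) = ∑ k, (w i j k : ℤ) := by
        simp only [h, Finset.sum_sub_distrib, z1, sub_zero]
      exact_mod_cast this
    · have : (∑ j, (w' i j k : ℤ)) = ∑ j, (w i j k : ℤ) := by
        simp only [h, Finset.sum_sub_distrib, z2, sub_zero]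
      exact_mod_cast this
    · have : (∑ i, (w' i j k : ℤ)) = ∑ i, (w i j k : ℤ) := by
        simp only [h, Finset.sum_sub_distrib, z3, sub_zero]
      exact_mod_cast this

/-- the total of a table -/
def tot (u : Tab I J K) : ℕ := ∑ i, ∑ j, ∑ k, u i j k

theorem tot_eq_zero {u : Tab I J K} (h : tot u = 0) : u = 0 := by
  funext i j k
  have h1 := (Finset.sum_eq_zero_iff.mp h) i (Finset.mem_univ i)
  have h2 := (Finset.sum_eq_zero_iff.mp h1) j (Finset.mem_univ j)
  exact (Finset.sum_eq_zero_iff.mp h2) k (Finset.mem_univ k)

theorem tot_same {u v : Tab I J K} (h : SameM u v) : tot u = tot v := by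
  unfold tot
  exact Finset.sum_congr rfl fun i _ => Finset.sum_congr rfl fun j _ => h.1 i j

theorem tot_add (u v : Tab I J K) : tot (u + v) = tot u + tot v := by
  simp only [tot, Pi.add_apply, Finset.sum_add_distrib]

theorem sameM_sub {u v u' v' : Tab I J K} (h : SameM (u + u') (v + v')) (h' : SameM u' v') :
    SameM u v := by
  obtain ⟨h1, h2, h3⟩ := h
  obtain ⟨h1', h2', h3'⟩ := h'
  refine ⟨fun i j => ?_, fun i k => ?_, fun j k => ?_⟩
  · have e := h1 i j
    simp only [Pi.add_apply, Finset.sum_add_distrib] at e
    have e' := h1' i j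
    omega
  · have e := h2 i k
    simp only [Pi.add_apply, Finset.sum_add_distrib] at e
    have e' := h2' i k
    omega
  · have e := h3 j k
    simp only [Pi.add_apply, Finset.sum_add_distrib] at e
    have e' := h3' j k
    omega

theorem step_add {B : Finset (Mov I J K)} {w w' : Tab I J K} (r : Tab I J K)
    (h : Step B w w') : Step B (w + r) (w' + r) := by
  obtain ⟨m, hm, h⟩ := h
  refine ⟨m, hm, ?_⟩
  rcases h with h | h
  · left
    intro i j k
    have := h i j k
    simp only [Pi.add_apply, Nat.cast_add]
    omega
  · right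
    intro i j k
    have := h i j k
    simp only [Pi.add_apply, Nat.cast_add]
    omega

theorem reach_add {B : Finset (Mov I J K)} {w w' : Tab I J K} (r : Tab I J K)
    (h : Relation.ReflTransGen (Step B) w w') :
    Relation.ReflTransGen (Step B) (w + r) (w' + r) := by
  induction h with
  | refl => exact Relation.ReflTransGen.refl
  | tail _ h2 ih => exact Relation.ReflTransGen.tail ih (step_add r h2)

/-- the set of pairs of different tables with the same margins -/
def PairSet (I J K : ℕ) : Set (Tab I J K × Tab I J K) := {p | SameM p.1 p.2 ∧ p.1 ≠ p.2}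

/-- Existence of a finite Markov basis. -/
theorem exists_MB (I J K : ℕ) : ∃ B : Finset (Mov I J K), MB B := by
  classical
  have hfin : {p : Tab I J K × Tab I J K | Minimal (· ∈ PairSet I J K) p}.Finite := by
    apply WellQuasiOrderedLE.finite_of_isAntichain
    exact setOfPred_minimal_antichain _
  refine ⟨hfin.toFinset.image fun p => dif p.2 p.1, ?_, ?_⟩
  · intro m hm
    simp only [Finset.mem_image, Set.Finite.mem_toFinset, Set.mem_ofPred_eq] at hm
    obtain ⟨p, hp, rfl⟩ := hm
    exact dif_zeroM hp.prop.1.symm
  · intro u v h1 h2 h3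
    have hs : SameM u v := ⟨h1, h2, h3⟩
    clear h1 h2 h3
    change Relation.ReflTransGen (Step (hfin.toFinset.image fun p => dif p.2 p.1)) u v
    induction hn : tot u using Nat.strong_induction_on generalizing u v with
    | _ n ih =>
      by_cases huv : u = v
      · rw [huv]
      · obtain ⟨p, hp, hmin⟩ := exists_minimal_le_of_wellFoundedLT (· ∈ PairSet I J K) (u, v)
          ⟨hs, huv⟩
        obtain ⟨p1, p2⟩ := p
        have hle1 : p1 ≤ u := hp.1
        have hle2 : p2 ≤ v := hp.2
        have hpm : SameM p1 p2 := hmin.prop.1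
        have hpn : p1 ≠ p2 := hmin.prop.2
        obtain ⟨r, rfl⟩ := exists_add_of_le hle1
        obtain ⟨s, rfl⟩ := exists_add_of_le hle2
        have hstep : Step (hfin.toFinset.image fun p => dif p.2 p.1) (p1 + r) (p2 + r) := by
          refine ⟨dif p2 p1, ?_, Or.inl fun i j k => ?_⟩
          · simp only [Finset.mem_image, Set.Finite.mem_toFinset, Set.mem_ofPred_eq]
            exact ⟨(p1, p2), hmin, rfl⟩
          · simp only [dif, Pi.add_apply, Nat.cast_add]
            ring
        refine Relation.ReflTransGen.head hstep ?_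
        have hrs : SameM r s := by
          apply sameM_sub (u' := p1) (v' := p2) _ hpm
          rw [add_comm r, add_comm s]
          exact hs
        have hpos : 0 < tot p1 := by
          rcases Nat.eq_zero_or_pos (tot p1) with h0 | h0
          · exfalso
            apply hpn
            have h0' : tot p2 = 0 := by rw [← tot_same hpm, h0]
            rw [tot_eq_zero h0, tot_eq_zero h0']
          · exact h0
        have hlt : tot r < n := by
          rw [tot_add] at hn
          omega
        have := reach_add p2 (ih (tot r) hlt r s hrs rfl)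
        rw [add_comm p2 r, add_comm p2 s]
        exact this

/-- Every Markov basis contains a minimal one. -/
theorem exists_min {B : Finset (Mov I J K)} (hB : MB B) :
    ∃ C, C ⊆ B ∧ MB C ∧ ∀ D, D ⊂ C → ¬ MB D := by
  obtain ⟨C, hC, hmin⟩ := exists_minimal_le_of_wellFoundedLT (fun C => MB C) B hB
  refine ⟨C, hC, hmin.prop, fun D hD hMB => ?_⟩
  exact hD.2 (hmin.le_of_le hMB hD.1)

/-- In a fibre `{a, b, c}` every Markov basis has a move from `c` to `a` or `b`. -/
theorem must_use {a b c : Tab I J K} (hac : SameM a c) (hne : a ≠ c)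
    (hfib : ∀ w, SameM w c → w = a ∨ w = b ∨ w = c)
    {B : Finset (Mov I J K)} (hB : MB B) :
    (dif a c ∈ B ∨ -dif a c ∈ B) ∨ (dif b c ∈ B ∨ -dif b c ∈ B) := by
  have hpath : Relation.ReflTransGen (Step B) c a := hB.2 c a (fun i j => (hac.1 i j).symm)
    (fun i j => (hac.2.1 i j).symm) (fun i j => (hac.2.2 i j).symm)
  by_contra hcon
  push Not at hcon
  obtain ⟨⟨h1, h2⟩, h3, h4⟩ := hcon
  have key : ∀ w, Relation.ReflTransGen (Step B) c w → w = c := by
    intro w hw
    induction hw with
    | refl => rfl
    | @tail x y _ hxy ih =>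
      subst ih
      have hsm := step_same hB.1 hxy
      obtain ⟨m, hm, hh⟩ := hxy
      rcases hfib y hsm with rfl | rfl | rfl
      · exfalso
        rcases hh with hh | hh
        · apply h1
          have : dif y x = m := by
            funext i j k
            have := hh i j k
            simp only [dif]
            omega
          rw [this]; exact hm
        · apply h2
          have : -dif y x = m := by
            funext i j k
            have := hh i j k
            simp only [dif, Pi.neg_apply]
            omega
          rw [this]; exact hm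
      · exfalso
        rcases hh with hh | hh
        · apply h3
          have : dif y x = m := by
            funext i j k
            have := hh i j k
            simp only [dif]
            omega
          rw [this]; exact hm
        · apply h4
          have : -dif y x = m := by
            funext i j k
            have := hh i j k
            simp only [dif, Pi.neg_apply]
            omega
          rw [this]; exact hm
      · rfl
  exact hne (key a hpath)

/-- The exchange: from any Markov basis get one avoiding `±(b - c)`. -/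
theorem exchange {a b c : Tab I J K} (hac : SameM a c) (hbc : SameM b c) (hab : a ≠ b)
    (hdb : ∀ i j k, c i j k = 0 ∨ b i j k = 0)
    {i₀ : Fin I} {j₀ : Fin J} {k₀ : Fin K} (hc : c i₀ j₀ k₀ ≠ 0) (ha0 : a i₀ j₀ k₀ = 0)
    (hb0 : b i₀ j₀ k₀ = 0) {B : Finset (Mov I J K)} (hB : MB B) :
    ∃ B' : Finset (Mov I J K), MB B' ∧ dif b c ∉ B' ∧ -dif b c ∉ B' := by
  classical
  refine ⟨((B.erase (dif b c)).erase (-dif b c)) ∪ {dif a c, dif b a}, ⟨?_, ?_⟩, ?_, ?_⟩
  · intro m hm
    simp only [Finset.mem_union, Finset.mem_erase, Finset.mem_insert, Finset.mem_singleton] at hm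
    rcases hm with ⟨_, _, hm⟩ | rfl | rfl
    · exact hB.1 m hm
    · exact dif_zeroM hac
    · exact dif_zeroM (hbc.trans hac.symm)
  · intro u v h1 h2 h3
    have hp := hB.2 u v h1 h2 h3
    change Relation.ReflTransGen (Step (((B.erase (dif b c)).erase (-dif b c)) ∪
      {dif a c, dif b a})) u v
    set B' := ((B.erase (dif b c)).erase (-dif b c)) ∪ {dif a c, dif b a} with hB'
    have hmac : dif a c ∈ B' := by rw [hB']; simp
    have hmba : dif b a ∈ B' := by rw [hB']; simp
    -- one elementary replacement
    have repl : ∀ w w' : Tab I J K, (∀ i j k, (w' i j k : ℤ) = w i j k + dif b c i j k) →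
        Relation.ReflTransGen (Step B') w w' := by
      intro w w' h
      have hcw : c ≤ w := by
        intro i j k
        change c i j k ≤ w i j k
        have := h i j k
        simp only [dif] at this
        rcases hdb i j k with h0 | h0 <;> omega
      obtain ⟨r, rfl⟩ := exists_add_of_le hcw
      have hw' : w' = b + r := by
        funext i j k
        have := h i j k
        simp only [dif, Pi.add_apply] at this ⊢
        omega
      subst hw'
      refine Relation.ReflTransGen.head (b := a + r) ?_ (Relation.ReflTransGen.single ?_)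
      · exact ⟨dif a c, hmac, Or.inl fun i j k => by
          simp only [dif, Pi.add_apply, Nat.cast_add]; ring⟩
      · exact ⟨dif b a, hmba, Or.inl fun i j k => by
          simp only [dif, Pi.add_apply, Nat.cast_add]; ring⟩
    have hstep : ∀ w w' : Tab I J K, Step B w w' → Relation.ReflTransGen (Step B') w w' := by
      intro w w' hs
      obtain ⟨m, hm, hh⟩ := hs
      by_cases hm1 : m = dif b c
      · subst hm1
        rcases hh with hh | hh
        · exact repl w w' hh
        · apply reach_symm
          apply repl w' w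
          intro i j k
          have := hh i j k
          omega
      · by_cases hm2 : m = -dif b c
        · subst hm2
          rcases hh with hh | hh
          · apply reach_symm
            apply repl w' w
            intro i j k
            have := hh i j k
            simp only [Pi.neg_apply] at this
            omega
          · apply repl w w'
            intro i j k
            have := hh i j k
            simp only [Pi.neg_apply] at this
            omega
        · refine Relation.ReflTransGen.single ⟨m, ?_, hh⟩
          rw [hB']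
          simp only [Finset.mem_union, Finset.mem_erase]
          exact Or.inl ⟨hm2, hm1, hm⟩
    clear h1 h2 h3
    induction hp with
    | refl => exact Relation.ReflTransGen.refl
    | tail _ h2 ih => exact ih.trans (hstep _ _ h2)
  · simp only [Finset.mem_union, Finset.mem_erase, Finset.mem_insert, Finset.mem_singleton,
      not_or, not_and]
    refine ⟨fun _ h => absurd rfl h, ?_, ?_⟩
    · intro h
      apply hab
      funext i j k
      have := congrFun (congrFun (congrFun h i) j) k
      simp only [dif] at this
      omega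
    · intro h
      have := congrFun (congrFun (congrFun h i₀) j₀) k₀
      simp only [dif] at this
      omega
  · simp only [Finset.mem_union, Finset.mem_erase, Finset.mem_insert, Finset.mem_singleton,
      not_or, not_and]
    refine ⟨fun h => absurd rfl h, ?_, ?_⟩
    · intro h
      have := congrFun (congrFun (congrFun h i₀) j₀) k₀
      simp only [dif, Pi.neg_apply] at this
      omega
    · intro h
      have := congrFun (congrFun (congrFun h i₀) j₀) k₀
      simp only [dif, Pi.neg_apply] at this
      omega

/-- A fibre `{a, b, c}` with `c` disjoint from `a` and `b` gives two minimal Markov bases that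
differ even up to sign. -/
theorem two_minimal {a b c : Tab I J K} (hac : SameM a c) (hbc : SameM b c) (hab : a ≠ b)
    (hda : ∀ i j k, c i j k = 0 ∨ a i j k = 0)
    (hdb : ∀ i j k, c i j k = 0 ∨ b i j k = 0)
    (hfib : ∀ w, SameM w c → w = a ∨ w = b ∨ w = c)
    {i₀ : Fin I} {j₀ : Fin J} {k₀ : Fin K} (hc : c i₀ j₀ k₀ ≠ 0) :
    ∃ B B' : Finset (Mov I J K), (MB B ∧ ∀ C, C ⊂ B → ¬ MB C) ∧ (MB B' ∧ ∀ C, C ⊂ B' → ¬ MB C) ∧
      ∃ m, ¬ ((m ∈ B ∨ -m ∈ B) ↔ (m ∈ B' ∨ -m ∈ B')) := by
  have ha0 : a i₀ j₀ k₀ = 0 := (hda i₀ j₀ k₀).resolve_left hc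
  have hb0 : b i₀ j₀ k₀ = 0 := (hdb i₀ j₀ k₀).resolve_left hc
  have hac' : a ≠ c := by rintro rfl; exact hc ha0
  have hbc' : b ≠ c := by rintro rfl; exact hc hb0
  obtain ⟨B0, hB0⟩ := exists_MB I J K
  obtain ⟨B1, hB1, h11, h12⟩ := exchange hac hbc hab hdb hc ha0 hb0 hB0
  obtain ⟨B2, hB2, h21, h22⟩ := exchange hbc hac hab.symm hda hc hb0 ha0 hB0
  obtain ⟨C1, hC1s, hC1, hC1m⟩ := exists_min hB1
  obtain ⟨C2, hC2s, hC2, hC2m⟩ := exists_min hB2
  refine ⟨C1, C2, ⟨hC1, hC1m⟩, ⟨hC2, hC2m⟩, dif a c, ?_⟩
  intro hiff
  have hu := must_use hac hac' hfib hC1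
  rcases hu with hu | hu
  · rcases hiff.mp hu with h | h
    · exact h21 (hC2s h)
    · exact h22 (hC2s h)
  · rcases hu with h | h
    · exact h11 (hC1s h)
    · exact h12 (hC1s h)

end Pool.Agent.Helper56Markov
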