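import Mathlib
import Pool.Agent.Helper56_Markov.Basic

/-!
An explicit fibre of 12 x 12 x 3 tables with exactly three elements `a`, `b`, `c`, where the
supports of `a` and `c` are disjoint and so are those of `b` and `c`.

Tables are encoded by colour matrices: entry `t + 1` at `(i, j)` means that the line `(i, j, *)`
has a single one, in layer `t`; entry `0` means that this line is zero.
-/

set_option autoImplicit false

namespace Pool.Agent.Helper56Markov

/-- table given by a matrix of colours -/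
def tab (M : Fin 12 → Fin 12 → ℕ) : Tab 12 12 3 := fun i j k => if M i j = k.val + 1 then 1 else 0

def colC : Fin 12 → Fin 12 → ℕ :=
  ![![1, 1, 0, 0, 2, 0, 0, 3, 0, 0, 0, 0],
    ![1, 1, 0, 0, 0, 0, 0, 0, 2, 0, 0, 3],
    ![0, 0, 0, 0, 1, 3, 2, 0, 0, 0, 0, 0],
    ![0, 0, 0, 0, 0, 0, 0, 0, 1, 3, 2, 0],
    ![3, 0, 0, 0, 0, 1, 0, 0, 0, 0, 0, 0],
    ![0, 0, 2, 0, 0, 0, 3, 0, 0, 0, 0, 0],
    ![2, 0, 1, 0, 0, 0, 0, 0, 0, 0, 0, 0],
    ![0, 0, 3, 0, 0, 0, 0, 1, 0, 0, 0, 0],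
    ![0, 3, 0, 0, 0, 0, 0, 0, 0, 1, 0, 0],
    ![0, 0, 0, 2, 0, 0, 0, 0, 0, 0, 3, 0],
    ![0, 2, 0, 1, 0, 0, 0, 0, 0, 0, 0, 0],
    ![0, 0, 0, 3, 0, 0, 0, 0, 0, 0, 0, 1]]

def colA : Fin 12 → Fin 12 → ℕ :=
  ![![2, 3, 0, 0, 1, 0, 0, 1, 0, 0, 0, 0],
    ![3, 2, 0, 0, 0, 0, 0, 0, 1, 0, 0, 1],
    ![0, 0, 0, 0, 2, 1, 3, 0, 0, 0, 0, 0],
    ![0, 0, 0, 0, 0, 0, 0, 0, 2, 1, 3, 0],
    ![1, 0, 0, 0, 0, 3, 0, 0, 0, 0, 0, 0],
    ![0, 0, 3, 0, 0, 0, 2, 0, 0, 0, 0, 0],
    ![1, 0, 2, 0, 0, 0, 0, 0, 0, 0, 0, 0],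
    ![0, 0, 1, 0, 0, 0, 0, 3, 0, 0, 0, 0],
    ![0, 1, 0, 0, 0, 0, 0, 0, 0, 3, 0, 0],
    ![0, 0, 0, 3, 0, 0, 0, 0, 0, 0, 2, 0],
    ![0, 1, 0, 2, 0, 0, 0, 0, 0, 0, 0, 0],
    ![0, 0, 0, 1, 0, 0, 0, 0, 0, 0, 0, 3]]

def colB : Fin 12 → Fin 12 → ℕ :=
  ![![3, 2, 0, 0, 1, 0, 0, 1, 0, 0, 0, 0],
    ![2, 3, 0, 0, 0, 0, 0, 0, 1, 0, 0, 1],
    ![0, 0, 0, 0, 2, 1, 3, 0, 0, 0, 0, 0],
    ![0, 0, 0, 0, 0, 0, 0, 0, 2, 1, 3, 0],
    ![1, 0, 0, 0, 0, 3, 0, 0, 0, 0, 0, 0],
    ![0, 0, 3, 0, 0, 0, 2, 0, 0, 0, 0, 0],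
    ![1, 0, 2, 0, 0, 0, 0, 0, 0, 0, 0, 0],
    ![0, 0, 1, 0, 0, 0, 0, 3, 0, 0, 0, 0],
    ![0, 1, 0, 0, 0, 0, 0, 0, 0, 3, 0, 0],
    ![0, 0, 0, 3, 0, 0, 0, 0, 0, 0, 2, 0],
    ![0, 1, 0, 2, 0, 0, 0, 0, 0, 0, 0, 0],
    ![0, 0, 0, 1, 0, 0, 0, 0, 0, 0, 0, 3]]

/-- indicator -/
def g (t k : Fin 3) : ℕ := if t = k then 1 else 0

def B2 (x y : Fin 3) (a b c : ℕ) : Bool :=
  Nat.beq (g x 0 + g y 0) a && Nat.beq (g x 1 + g y 1) b && Nat.beq (g x 2 + g y 2) c

def B3 (x y z : Fin 3) (a b c : ℕ) : Bool :=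
  Nat.beq (g x 0 + g y 0 + g z 0) a && Nat.beq (g x 1 + g y 1 + g z 1) b &&
    Nat.beq (g x 2 + g y 2 + g z 2) c

def B4 (x y z t : Fin 3) (a b c : ℕ) : Bool :=
  Nat.beq (g x 0 + g y 0 + g z 0 + g t 0) a && Nat.beq (g x 1 + g y 1 + g z 1 + g t 1) b &&
    Nat.beq (g x 2 + g y 2 + g z 2 + g t 2) c

def all3 (p : Fin 3 → Bool) : Bool := p 0 && p 1 && p 2

def imp (a b : Bool) : Bool := !a || b

theorem all3_iff (p : Fin 3 → Bool) : all3 p = true ↔ ∀ x, p x = true := by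
  simp only [all3, Bool.and_eq_true]
  constructor
  · rintro ⟨⟨h0, h1⟩, h2⟩ x
    fin_cases x
    · exact h0
    · exact h1
    · exact h2
  · intro h
    exact ⟨⟨h 0, h 1⟩, h 2⟩

theorem imp_iff (a b : Bool) : imp a b = true ↔ (a = true → b = true) := by
  cases a <;> cases b <;> simp [imp]

theorem B2_iff (x y : Fin 3) (a b c : ℕ) : B2 x y a b c = true ↔
    (g x 0 + g y 0 = a ∧ g x 1 + g y 1 = b ∧ g x 2 + g y 2 = c) := by
  simp [B2, and_assoc]

theorem B3_iff (x y z : Fin 3) (a b c : ℕ) : B3 x y z a b c = true ↔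
    (g x 0 + g y 0 + g z 0 = a ∧ g x 1 + g y 1 + g z 1 = b ∧ g x 2 + g y 2 + g z 2 = c) := by
  simp [B3, and_assoc]

theorem B4_iff (x y z t : Fin 3) (a b c : ℕ) : B4 x y z t a b c = true ↔
    (g x 0 + g y 0 + g z 0 + g t 0 = a ∧ g x 1 + g y 1 + g z 1 + g t 1 = b ∧
      g x 2 + g y 2 + g z 2 + g t 2 = c) := by
  simp [B4, and_assoc]

/-- the search: the only colourings with the colour degrees of `colC` are `colC`, `colA`,
`colB` -/
theorem core : (all3 fun x8 => all3 fun x9 => all3 fun x10 => imp (B3 x8 x9 x10 1 1 1) (all3 fun x2 => imp (B2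
    x2 x8 1 1 0) (all3 fun x15 => imp (B2 x9 x15 1 0 1) (all3 fun x17 => imp (B2 x10 x17 0 1 1)
    (all3 fun x14 => imp (B2 x14 x15 1 0 1) (all3 fun x16 => imp (B2 x16 x17 0 1 1) (all3 fun
    x19 => all3 fun x20 => imp (B3 x16 x19 x20 1 1 1) (all3 fun x18 => imp (B2 x18 x19 1 1 0)
    (all3 fun x21 => imp (B2 x20 x21 1 0 1) (all3 fun x3 => imp (B2 x3 x21 1 0 1) (all3 fun x0
    => all3 fun x1 => imp (B4 x0 x1 x2 x3 2 1 1) (all3 fun x4 => imp (B4 x0 x4 x14 x18 2 1 1)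
    (all3 fun x5 => all3 fun x22 => all3 fun x26 => imp (B4 x1 x5 x22 x26 2 1 1) (all3 fun x23
    => imp (B2 x22 x23 1 0 1) (all3 fun x12 => imp (B2 x12 x23 1 0 1) (all3 fun x27 => imp (B2
    x26 x27 1 1 0) (all3 fun x6 => all3 fun x7 => imp (B4 x4 x5 x6 x7 2 1 1) (all3 fun x11 =>
    imp (B2 x6 x11 1 1 0) (all3 fun x29 => imp (B2 x7 x29 1 0 1) (all3 fun x13 => imp (B3 x11
    x12 x13 1 1 1) (all3 fun x25 => imp (B2 x13 x25 0 1 1) (all3 fun x24 => imp (B2 x24 x25 0 1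
    1) (all3 fun x28 => imp (B3 x24 x27 x28 1 1 1) (imp (B2 x28 x29 1 0 1) ((x0 == 0 && x1 == 0
    && x2 == 1 && x3 == 2 && x4 == 0 && x5 == 0 && x6 == 1 && x7 == 2 && x8 == 0 && x9 == 2 &&
    x10 == 1 && x11 == 0 && x12 == 2 && x13 == 1 && x14 == 2 && x15 == 0 && x16 == 1 && x17 == 2
    && x18 == 1 && x19 == 0 && x20 == 2 && x21 == 0 && x22 == 2 && x23 == 0 && x24 == 1 && x25
    == 2 && x26 == 1 && x27 == 0 && x28 == 2 && x29 == 0) || (x0 == 1 && x1 == 2 && x2 == 0 &&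
    x3 == 0 && x4 == 2 && x5 == 1 && x6 == 0 && x7 == 0 && x8 == 1 && x9 == 0 && x10 == 2 && x11
    == 1 && x12 == 0 && x13 == 2 && x14 == 0 && x15 == 2 && x16 == 2 && x17 == 1 && x18 == 0 &&
    x19 == 1 && x20 == 0 && x21 == 2 && x22 == 0 && x23 == 2 && x24 == 2 && x25 == 1 && x26 == 0
    && x27 == 1 && x28 == 0 && x29 == 2) || (x0 == 2 && x1 == 1 && x2 == 0 && x3 == 0 && x4 == 1
    && x5 == 2 && x6 == 0 && x7 == 0 && x8 == 1 && x9 == 0 && x10 == 2 && x11 == 1 && x12 == 0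
    && x13 == 2 && x14 == 0 && x15 == 2 && x16 == 2 && x17 == 1 && x18 == 0 && x19 == 1 && x20
    == 0 && x21 == 2 && x22 == 0 && x23 == 2 && x24 == 2 && x25 == 1 && x26 == 0 && x27 == 1 &&
    x28 == 0 && x29 == 2)))))))))))))))))))))))))) = true := by
  decide +kernel

theorem exists_col (x : Fin 3 → ℕ) (h : ∑ k, x k = 1) : ∃ t : Fin 3, ∀ k, x k = g t k := by
  rw [Fin.sum_univ_three] at h
  have h' : (x 0 = 1 ∧ x 1 = 0 ∧ x 2 = 0) ∨ (x 0 = 0 ∧ x 1 = 1 ∧ x 2 = 0) ∨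
    (x 0 = 0 ∧ x 1 = 0 ∧ x 2 = 1) := by omega
  rcases h' with ⟨h0, h1, h2⟩ | ⟨h0, h1, h2⟩ | ⟨h0, h1, h2⟩
  · exact ⟨0, fun k => by fin_cases k <;> simp [g, h0, h1, h2]⟩
  · exact ⟨1, fun k => by fin_cases k <;> simp [g, h0, h1, h2]⟩
  · exact ⟨2, fun k => by fin_cases k <;> simp [g, h0, h1, h2]⟩

theorem colC_sum (i j : Fin 12) : ∑ k, tab colC i j k = if colC i j = 0 then 0 else 1 := by
  revert i j
  decide +kernel

/-- the edges -/
def edges : List (Fin 12 × Fin 12) :=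
  [(0, 0), (0, 1), (0, 4), (0, 7), (1, 0), (1, 1), (1, 8), (1, 11), (2, 4), (2, 5), (2, 6), (3, 8),
    (3, 9), (3, 10), (4, 0), (4, 5), (5, 2), (5, 6), (6, 0), (6, 2), (7, 2), (7, 7), (8, 1), (8,
    9), (9, 3), (9, 10), (10, 1), (10, 3), (11, 3), (11, 11)]

theorem edges_spec : ∀ i j : Fin 12, colC i j ≠ 0 → (i, j) ∈ edges := by
  decide +kernel

theorem edges_spec' : ∀ i j : Fin 12, (i, j) ∈ edges → colC i j ≠ 0 := by
  decide +kernel

theorem colA_zero : ∀ i j : Fin 12, colC i j = 0 → colA i j = 0 := by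
  decide +kernel

theorem colB_zero : ∀ i j : Fin 12, colC i j = 0 → colB i j = 0 := by
  decide +kernel

theorem same_ac : SameM (tab colA) (tab colC) := by
  refine ⟨?_, ?_, ?_⟩ <;> decide +kernel

theorem same_bc : SameM (tab colB) (tab colC) := by
  refine ⟨?_, ?_, ?_⟩ <;> decide +kernel

theorem disj_a : ∀ i j k, tab colC i j k = 0 ∨ tab colA i j k = 0 := by
  decide +kernel

theorem disj_b : ∀ i j k, tab colC i j k = 0 ∨ tab colB i j k = 0 := by
  decide +kernel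

theorem eq_tab {w : Tab 12 12 3} {F : Fin 12 → Fin 12 → Fin 3} {X : Fin 12 → Fin 12 → ℕ}
    (hw : ∀ i j k, w i j k = if colC i j = 0 then 0 else g (F i j) k)
    (hX0 : ∀ i j, colC i j = 0 → X i j = 0)
    (hX : ∀ p ∈ edges, X p.1 p.2 = (F p.1 p.2).val + 1) : w = tab X := by
  funext i j k
  rw [hw i j k]
  unfold tab
  by_cases h : colC i j = 0
  · rw [if_pos h, hX0 i j h, if_neg (by omega)]
  · rw [if_neg h, hX (i, j) (edges_spec i j h)]
    unfold g
    by_cases h' : F i j = k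
    · rw [if_pos h', if_pos (by rw [h'])]
    · rw [if_neg h', if_neg]
      intro h''
      apply h'
      apply Fin.ext
      simpa using h''

theorem row0 {F : Fin 12 → Fin 12 → Fin 3}
    (h : ∀ i k, ∑ j, (if colC i j = 0 then 0 else g (F i j) k) = ∑ j, tab colC i j k) :
    B4 (F 0 0) (F 0 1) (F 0 4) (F 0 7) 2 1 1 = true := by
  rw [B4_iff]
  have e : ∀ k, ∑ j, (if colC 0 j = 0 then 0 else g (F 0 j) k) = g (F 0 0) k + g (F 0 1) k + g (F 0 4) k + g (F 0 7) k := by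
    intro k
    rw [← Finset.sum_subset (Finset.subset_univ ({0, 1, 4, 7} : Finset (Fin 12)))]
    · simp [colC]; ring
    · intro j _ hj
      have : colC 0 j = 0 := by revert j; decide +kernel
      rw [if_pos this]
  refine ⟨?_, ?_, ?_⟩
  · rw [← e 0, h 0 0]; decide +kernel
  · rw [← e 1, h 0 1]; decide +kernel
  · rw [← e 2, h 0 2]; decide +kernel

theorem row1 {F : Fin 12 → Fin 12 → Fin 3}
    (h : ∀ i k, ∑ j, (if colC i j = 0 then 0 else g (F i j) k) = ∑ j, tab colC i j k) :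
    B4 (F 1 0) (F 1 1) (F 1 8) (F 1 11) 2 1 1 = true := by
  rw [B4_iff]
  have e : ∀ k, ∑ j, (if colC 1 j = 0 then 0 else g (F 1 j) k) = g (F 1 0) k + g (F 1 1) k + g (F 1 8) k + g (F 1 11) k := by
    intro k
    rw [← Finset.sum_subset (Finset.subset_univ ({0, 1, 8, 11} : Finset (Fin 12)))]
    · simp [colC]; ring
    · intro j _ hj
      have : colC 1 j = 0 := by revert j; decide +kernel
      rw [if_pos this]
  refine ⟨?_, ?_, ?_⟩
  · rw [← e 0, h 1 0]; decide +kernel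
  · rw [← e 1, h 1 1]; decide +kernel
  · rw [← e 2, h 1 2]; decide +kernel

theorem row2 {F : Fin 12 → Fin 12 → Fin 3}
    (h : ∀ i k, ∑ j, (if colC i j = 0 then 0 else g (F i j) k) = ∑ j, tab colC i j k) :
    B3 (F 2 4) (F 2 5) (F 2 6) 1 1 1 = true := by
  rw [B3_iff]
  have e : ∀ k, ∑ j, (if colC 2 j = 0 then 0 else g (F 2 j) k) = g (F 2 4) k + g (F 2 5) k + g (F 2 6) k := by
    intro k
    rw [← Finset.sum_subset (Finset.subset_univ ({4, 5, 6} : Finset (Fin 12)))]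
    · simp [colC]; ring
    · intro j _ hj
      have : colC 2 j = 0 := by revert j; decide +kernel
      rw [if_pos this]
  refine ⟨?_, ?_, ?_⟩
  · rw [← e 0, h 2 0]; decide +kernel
  · rw [← e 1, h 2 1]; decide +kernel
  · rw [← e 2, h 2 2]; decide +kernel

theorem row3 {F : Fin 12 → Fin 12 → Fin 3}
    (h : ∀ i k, ∑ j, (if colC i j = 0 then 0 else g (F i j) k) = ∑ j, tab colC i j k) :
    B3 (F 3 8) (F 3 9) (F 3 10) 1 1 1 = true := by
  rw [B3_iff]
  have e : ∀ k, ∑ j, (if colC 3 j = 0 then 0 else g (F 3 j) k) = g (F 3 8) k + g (F 3 9) k + g (F 3 10) k := by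
    intro k
    rw [← Finset.sum_subset (Finset.subset_univ ({8, 9, 10} : Finset (Fin 12)))]
    · simp [colC]; ring
    · intro j _ hj
      have : colC 3 j = 0 := by revert j; decide +kernel
      rw [if_pos this]
  refine ⟨?_, ?_, ?_⟩
  · rw [← e 0, h 3 0]; decide +kernel
  · rw [← e 1, h 3 1]; decide +kernel
  · rw [← e 2, h 3 2]; decide +kernel

theorem row4 {F : Fin 12 → Fin 12 → Fin 3}
    (h : ∀ i k, ∑ j, (if colC i j = 0 then 0 else g (F i j) k) = ∑ j, tab colC i j k) :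
    B2 (F 4 0) (F 4 5) 1 0 1 = true := by
  rw [B2_iff]
  have e : ∀ k, ∑ j, (if colC 4 j = 0 then 0 else g (F 4 j) k) = g (F 4 0) k + g (F 4 5) k := by
    intro k
    rw [← Finset.sum_subset (Finset.subset_univ ({0, 5} : Finset (Fin 12)))]
    · simp [colC]
    · intro j _ hj
      have : colC 4 j = 0 := by revert j; decide +kernel
      rw [if_pos this]
  refine ⟨?_, ?_, ?_⟩
  · rw [← e 0, h 4 0]; decide +kernel
  · rw [← e 1, h 4 1]; decide +kernel
  · rw [← e 2, h 4 2]; decide +kernel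

theorem row5 {F : Fin 12 → Fin 12 → Fin 3}
    (h : ∀ i k, ∑ j, (if colC i j = 0 then 0 else g (F i j) k) = ∑ j, tab colC i j k) :
    B2 (F 5 2) (F 5 6) 0 1 1 = true := by
  rw [B2_iff]
  have e : ∀ k, ∑ j, (if colC 5 j = 0 then 0 else g (F 5 j) k) = g (F 5 2) k + g (F 5 6) k := by
    intro k
    rw [← Finset.sum_subset (Finset.subset_univ ({2, 6} : Finset (Fin 12)))]
    · simp [colC]
    · intro j _ hj
      have : colC 5 j = 0 := by revert j; decide +kernel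
      rw [if_pos this]
  refine ⟨?_, ?_, ?_⟩
  · rw [← e 0, h 5 0]; decide +kernel
  · rw [← e 1, h 5 1]; decide +kernel
  · rw [← e 2, h 5 2]; decide +kernel

theorem row6 {F : Fin 12 → Fin 12 → Fin 3}
    (h : ∀ i k, ∑ j, (if colC i j = 0 then 0 else g (F i j) k) = ∑ j, tab colC i j k) :
    B2 (F 6 0) (F 6 2) 1 1 0 = true := by
  rw [B2_iff]
  have e : ∀ k, ∑ j, (if colC 6 j = 0 then 0 else g (F 6 j) k) = g (F 6 0) k + g (F 6 2) k := by
    intro k
    rw [← Finset.sum_subset (Finset.subset_univ ({0, 2} : Finset (Fin 12)))]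
    · simp [colC]
    · intro j _ hj
      have : colC 6 j = 0 := by revert j; decide +kernel
      rw [if_pos this]
  refine ⟨?_, ?_, ?_⟩
  · rw [← e 0, h 6 0]; decide +kernel
  · rw [← e 1, h 6 1]; decide +kernel
  · rw [← e 2, h 6 2]; decide +kernel

theorem row7 {F : Fin 12 → Fin 12 → Fin 3}
    (h : ∀ i k, ∑ j, (if colC i j = 0 then 0 else g (F i j) k) = ∑ j, tab colC i j k) :
    B2 (F 7 2) (F 7 7) 1 0 1 = true := by
  rw [B2_iff]
  have e : ∀ k, ∑ j, (if colC 7 j = 0 then 0 else g (F 7 j) k) = g (F 7 2) k + g (F 7 7) k := by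
    intro k
    rw [← Finset.sum_subset (Finset.subset_univ ({2, 7} : Finset (Fin 12)))]
    · simp [colC]
    · intro j _ hj
      have : colC 7 j = 0 := by revert j; decide +kernel
      rw [if_pos this]
  refine ⟨?_, ?_, ?_⟩
  · rw [← e 0, h 7 0]; decide +kernel
  · rw [← e 1, h 7 1]; decide +kernel
  · rw [← e 2, h 7 2]; decide +kernel

theorem row8 {F : Fin 12 → Fin 12 → Fin 3}
    (h : ∀ i k, ∑ j, (if colC i j = 0 then 0 else g (F i j) k) = ∑ j, tab colC i j k) :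
    B2 (F 8 1) (F 8 9) 1 0 1 = true := by
  rw [B2_iff]
  have e : ∀ k, ∑ j, (if colC 8 j = 0 then 0 else g (F 8 j) k) = g (F 8 1) k + g (F 8 9) k := by
    intro k
    rw [← Finset.sum_subset (Finset.subset_univ ({1, 9} : Finset (Fin 12)))]
    · simp [colC]
    · intro j _ hj
      have : colC 8 j = 0 := by revert j; decide +kernel
      rw [if_pos this]
  refine ⟨?_, ?_, ?_⟩
  · rw [← e 0, h 8 0]; decide +kernel
  · rw [← e 1, h 8 1]; decide +kernel
  · rw [← e 2, h 8 2]; decide +kernel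

theorem row9 {F : Fin 12 → Fin 12 → Fin 3}
    (h : ∀ i k, ∑ j, (if colC i j = 0 then 0 else g (F i j) k) = ∑ j, tab colC i j k) :
    B2 (F 9 3) (F 9 10) 0 1 1 = true := by
  rw [B2_iff]
  have e : ∀ k, ∑ j, (if colC 9 j = 0 then 0 else g (F 9 j) k) = g (F 9 3) k + g (F 9 10) k := by
    intro k
    rw [← Finset.sum_subset (Finset.subset_univ ({3, 10} : Finset (Fin 12)))]
    · simp [colC]
    · intro j _ hj
      have : colC 9 j = 0 := by revert j; decide +kernel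
      rw [if_pos this]
  refine ⟨?_, ?_, ?_⟩
  · rw [← e 0, h 9 0]; decide +kernel
  · rw [← e 1, h 9 1]; decide +kernel
  · rw [← e 2, h 9 2]; decide +kernel

theorem row10 {F : Fin 12 → Fin 12 → Fin 3}
    (h : ∀ i k, ∑ j, (if colC i j = 0 then 0 else g (F i j) k) = ∑ j, tab colC i j k) :
    B2 (F 10 1) (F 10 3) 1 1 0 = true := by
  rw [B2_iff]
  have e : ∀ k, ∑ j, (if colC 10 j = 0 then 0 else g (F 10 j) k) = g (F 10 1) k + g (F 10 3) k := by
    intro k
    rw [← Finset.sum_subset (Finset.subset_univ ({1, 3} : Finset (Fin 12)))]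
    · simp [colC]
    · intro j _ hj
      have : colC 10 j = 0 := by revert j; decide +kernel
      rw [if_pos this]
  refine ⟨?_, ?_, ?_⟩
  · rw [← e 0, h 10 0]; decide +kernel
  · rw [← e 1, h 10 1]; decide +kernel
  · rw [← e 2, h 10 2]; decide +kernel

theorem row11 {F : Fin 12 → Fin 12 → Fin 3}
    (h : ∀ i k, ∑ j, (if colC i j = 0 then 0 else g (F i j) k) = ∑ j, tab colC i j k) :
    B2 (F 11 3) (F 11 11) 1 0 1 = true := by
  rw [B2_iff]
  have e : ∀ k, ∑ j, (if colC 11 j = 0 then 0 else g (F 11 j) k) = g (F 11 3) k + g (F 11 11) k := by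
    intro k
    rw [← Finset.sum_subset (Finset.subset_univ ({3, 11} : Finset (Fin 12)))]
    · simp [colC]
    · intro j _ hj
      have : colC 11 j = 0 := by revert j; decide +kernel
      rw [if_pos this]
  refine ⟨?_, ?_, ?_⟩
  · rw [← e 0, h 11 0]; decide +kernel
  · rw [← e 1, h 11 1]; decide +kernel
  · rw [← e 2, h 11 2]; decide +kernel

theorem col0 {F : Fin 12 → Fin 12 → Fin 3}
    (h : ∀ j k, ∑ i, (if colC i j = 0 then 0 else g (F i j) k) = ∑ i, tab colC i j k) :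
    B4 (F 0 0) (F 1 0) (F 4 0) (F 6 0) 2 1 1 = true := by
  rw [B4_iff]
  have e : ∀ k, ∑ i, (if colC i 0 = 0 then 0 else g (F i 0) k) = g (F 0 0) k + g (F 1 0) k + g (F 4 0) k + g (F 6 0) k := by
    intro k
    rw [← Finset.sum_subset (Finset.subset_univ ({0, 1, 4, 6} : Finset (Fin 12)))]
    · simp [colC]; ring
    · intro i _ hi
      have : colC i 0 = 0 := by revert i; decide +kernel
      rw [if_pos this]
  refine ⟨?_, ?_, ?_⟩
  · rw [← e 0, h 0 0]; decide +kernel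
  · rw [← e 1, h 0 1]; decide +kernel
  · rw [← e 2, h 0 2]; decide +kernel

theorem col1 {F : Fin 12 → Fin 12 → Fin 3}
    (h : ∀ j k, ∑ i, (if colC i j = 0 then 0 else g (F i j) k) = ∑ i, tab colC i j k) :
    B4 (F 0 1) (F 1 1) (F 8 1) (F 10 1) 2 1 1 = true := by
  rw [B4_iff]
  have e : ∀ k, ∑ i, (if colC i 1 = 0 then 0 else g (F i 1) k) = g (F 0 1) k + g (F 1 1) k + g (F 8 1) k + g (F 10 1) k := by
    intro k
    rw [← Finset.sum_subset (Finset.subset_univ ({0, 1, 8, 10} : Finset (Fin 12)))]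
    · simp [colC]; ring
    · intro i _ hi
      have : colC i 1 = 0 := by revert i; decide +kernel
      rw [if_pos this]
  refine ⟨?_, ?_, ?_⟩
  · rw [← e 0, h 1 0]; decide +kernel
  · rw [← e 1, h 1 1]; decide +kernel
  · rw [← e 2, h 1 2]; decide +kernel

theorem col2 {F : Fin 12 → Fin 12 → Fin 3}
    (h : ∀ j k, ∑ i, (if colC i j = 0 then 0 else g (F i j) k) = ∑ i, tab colC i j k) :
    B3 (F 5 2) (F 6 2) (F 7 2) 1 1 1 = true := by
  rw [B3_iff]
  have e : ∀ k, ∑ i, (if colC i 2 = 0 then 0 else g (F i 2) k) = g (F 5 2) k + g (F 6 2) k + g (F 7 2) k := by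
    intro k
    rw [← Finset.sum_subset (Finset.subset_univ ({5, 6, 7} : Finset (Fin 12)))]
    · simp [colC]; ring
    · intro i _ hi
      have : colC i 2 = 0 := by revert i; decide +kernel
      rw [if_pos this]
  refine ⟨?_, ?_, ?_⟩
  · rw [← e 0, h 2 0]; decide +kernel
  · rw [← e 1, h 2 1]; decide +kernel
  · rw [← e 2, h 2 2]; decide +kernel

theorem col3 {F : Fin 12 → Fin 12 → Fin 3}
    (h : ∀ j k, ∑ i, (if colC i j = 0 then 0 else g (F i j) k) = ∑ i, tab colC i j k) :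
    B3 (F 9 3) (F 10 3) (F 11 3) 1 1 1 = true := by
  rw [B3_iff]
  have e : ∀ k, ∑ i, (if colC i 3 = 0 then 0 else g (F i 3) k) = g (F 9 3) k + g (F 10 3) k + g (F 11 3) k := by
    intro k
    rw [← Finset.sum_subset (Finset.subset_univ ({9, 10, 11} : Finset (Fin 12)))]
    · simp [colC]; ring
    · intro i _ hi
      have : colC i 3 = 0 := by revert i; decide +kernel
      rw [if_pos this]
  refine ⟨?_, ?_, ?_⟩
  · rw [← e 0, h 3 0]; decide +kernel
  · rw [← e 1, h 3 1]; decide +kernel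
  · rw [← e 2, h 3 2]; decide +kernel

theorem col4 {F : Fin 12 → Fin 12 → Fin 3}
    (h : ∀ j k, ∑ i, (if colC i j = 0 then 0 else g (F i j) k) = ∑ i, tab colC i j k) :
    B2 (F 0 4) (F 2 4) 1 1 0 = true := by
  rw [B2_iff]
  have e : ∀ k, ∑ i, (if colC i 4 = 0 then 0 else g (F i 4) k) = g (F 0 4) k + g (F 2 4) k := by
    intro k
    rw [← Finset.sum_subset (Finset.subset_univ ({0, 2} : Finset (Fin 12)))]
    · simp [colC]
    · intro i _ hi
      have : colC i 4 = 0 := by revert i; decide +kernel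
      rw [if_pos this]
  refine ⟨?_, ?_, ?_⟩
  · rw [← e 0, h 4 0]; decide +kernel
  · rw [← e 1, h 4 1]; decide +kernel
  · rw [← e 2, h 4 2]; decide +kernel

theorem col5 {F : Fin 12 → Fin 12 → Fin 3}
    (h : ∀ j k, ∑ i, (if colC i j = 0 then 0 else g (F i j) k) = ∑ i, tab colC i j k) :
    B2 (F 2 5) (F 4 5) 1 0 1 = true := by
  rw [B2_iff]
  have e : ∀ k, ∑ i, (if colC i 5 = 0 then 0 else g (F i 5) k) = g (F 2 5) k + g (F 4 5) k := by
    intro k
    rw [← Finset.sum_subset (Finset.subset_univ ({2, 4} : Finset (Fin 12)))]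
    · simp [colC]
    · intro i _ hi
      have : colC i 5 = 0 := by revert i; decide +kernel
      rw [if_pos this]
  refine ⟨?_, ?_, ?_⟩
  · rw [← e 0, h 5 0]; decide +kernel
  · rw [← e 1, h 5 1]; decide +kernel
  · rw [← e 2, h 5 2]; decide +kernel

theorem col6 {F : Fin 12 → Fin 12 → Fin 3}
    (h : ∀ j k, ∑ i, (if colC i j = 0 then 0 else g (F i j) k) = ∑ i, tab colC i j k) :
    B2 (F 2 6) (F 5 6) 0 1 1 = true := by
  rw [B2_iff]
  have e : ∀ k, ∑ i, (if colC i 6 = 0 then 0 else g (F i 6) k) = g (F 2 6) k + g (F 5 6) k := by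
    intro k
    rw [← Finset.sum_subset (Finset.subset_univ ({2, 5} : Finset (Fin 12)))]
    · simp [colC]
    · intro i _ hi
      have : colC i 6 = 0 := by revert i; decide +kernel
      rw [if_pos this]
  refine ⟨?_, ?_, ?_⟩
  · rw [← e 0, h 6 0]; decide +kernel
  · rw [← e 1, h 6 1]; decide +kernel
  · rw [← e 2, h 6 2]; decide +kernel

theorem col7 {F : Fin 12 → Fin 12 → Fin 3}
    (h : ∀ j k, ∑ i, (if colC i j = 0 then 0 else g (F i j) k) = ∑ i, tab colC i j k) :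
    B2 (F 0 7) (F 7 7) 1 0 1 = true := by
  rw [B2_iff]
  have e : ∀ k, ∑ i, (if colC i 7 = 0 then 0 else g (F i 7) k) = g (F 0 7) k + g (F 7 7) k := by
    intro k
    rw [← Finset.sum_subset (Finset.subset_univ ({0, 7} : Finset (Fin 12)))]
    · simp [colC]
    · intro i _ hi
      have : colC i 7 = 0 := by revert i; decide +kernel
      rw [if_pos this]
  refine ⟨?_, ?_, ?_⟩
  · rw [← e 0, h 7 0]; decide +kernel
  · rw [← e 1, h 7 1]; decide +kernel
  · rw [← e 2, h 7 2]; decide +kernel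

theorem col8 {F : Fin 12 → Fin 12 → Fin 3}
    (h : ∀ j k, ∑ i, (if colC i j = 0 then 0 else g (F i j) k) = ∑ i, tab colC i j k) :
    B2 (F 1 8) (F 3 8) 1 1 0 = true := by
  rw [B2_iff]
  have e : ∀ k, ∑ i, (if colC i 8 = 0 then 0 else g (F i 8) k) = g (F 1 8) k + g (F 3 8) k := by
    intro k
    rw [← Finset.sum_subset (Finset.subset_univ ({1, 3} : Finset (Fin 12)))]
    · simp [colC]
    · intro i _ hi
      have : colC i 8 = 0 := by revert i; decide +kernel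
      rw [if_pos this]
  refine ⟨?_, ?_, ?_⟩
  · rw [← e 0, h 8 0]; decide +kernel
  · rw [← e 1, h 8 1]; decide +kernel
  · rw [← e 2, h 8 2]; decide +kernel

theorem col9 {F : Fin 12 → Fin 12 → Fin 3}
    (h : ∀ j k, ∑ i, (if colC i j = 0 then 0 else g (F i j) k) = ∑ i, tab colC i j k) :
    B2 (F 3 9) (F 8 9) 1 0 1 = true := by
  rw [B2_iff]
  have e : ∀ k, ∑ i, (if colC i 9 = 0 then 0 else g (F i 9) k) = g (F 3 9) k + g (F 8 9) k := by
    intro k
    rw [← Finset.sum_subset (Finset.subset_univ ({3, 8} : Finset (Fin 12)))]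
    · simp [colC]
    · intro i _ hi
      have : colC i 9 = 0 := by revert i; decide +kernel
      rw [if_pos this]
  refine ⟨?_, ?_, ?_⟩
  · rw [← e 0, h 9 0]; decide +kernel
  · rw [← e 1, h 9 1]; decide +kernel
  · rw [← e 2, h 9 2]; decide +kernel

theorem col10 {F : Fin 12 → Fin 12 → Fin 3}
    (h : ∀ j k, ∑ i, (if colC i j = 0 then 0 else g (F i j) k) = ∑ i, tab colC i j k) :
    B2 (F 3 10) (F 9 10) 0 1 1 = true := by
  rw [B2_iff]
  have e : ∀ k, ∑ i, (if colC i 10 = 0 then 0 else g (F i 10) k) = g (F 3 10) k + g (F 9 10) k := by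
    intro k
    rw [← Finset.sum_subset (Finset.subset_univ ({3, 9} : Finset (Fin 12)))]
    · simp [colC]
    · intro i _ hi
      have : colC i 10 = 0 := by revert i; decide +kernel
      rw [if_pos this]
  refine ⟨?_, ?_, ?_⟩
  · rw [← e 0, h 10 0]; decide +kernel
  · rw [← e 1, h 10 1]; decide +kernel
  · rw [← e 2, h 10 2]; decide +kernel

theorem col11 {F : Fin 12 → Fin 12 → Fin 3}
    (h : ∀ j k, ∑ i, (if colC i j = 0 then 0 else g (F i j) k) = ∑ i, tab colC i j k) :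
    B2 (F 1 11) (F 11 11) 1 0 1 = true := by
  rw [B2_iff]
  have e : ∀ k, ∑ i, (if colC i 11 = 0 then 0 else g (F i 11) k) = g (F 1 11) k + g (F 11 11) k := by
    intro k
    rw [← Finset.sum_subset (Finset.subset_univ ({1, 11} : Finset (Fin 12)))]
    · simp [colC]
    · intro i _ hi
      have : colC i 11 = 0 := by revert i; decide +kernel
      rw [if_pos this]
  refine ⟨?_, ?_, ?_⟩
  · rw [← e 0, h 11 0]; decide +kernel
  · rw [← e 1, h 11 1]; decide +kernel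
  · rw [← e 2, h 11 2]; decide +kernel

/-- the fibre of the table `tab colC` -/
theorem fibre (w : Tab 12 12 3) (hw : SameM w (tab colC)) :
    w = tab colA ∨ w = tab colB ∨ w = tab colC := by
  obtain ⟨h1, h2, h3⟩ := hw
  have hex : ∀ i j, ∃ t : Fin 3, ∀ k, w i j k = if colC i j = 0 then 0 else g t k := by
    intro i j
    have h := h1 i j
    rw [colC_sum] at h
    by_cases h0 : colC i j = 0
    · rw [if_pos h0] at h
      refine ⟨0, fun k => ?_⟩
      rw [if_pos h0]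
      exact (Finset.sum_eq_zero_iff.mp h) k (Finset.mem_univ k)
    · rw [if_neg h0] at h
      obtain ⟨t, ht⟩ := exists_col _ h
      exact ⟨t, fun k => by rw [if_neg h0, ht k]⟩
  choose F hF using hex
  have hR : ∀ i k, ∑ j, (if colC i j = 0 then 0 else g (F i j) k) = ∑ j, tab colC i j k := by
    intro i k
    rw [← h2 i k]
    exact Finset.sum_congr rfl fun j _ => (hF i j k).symm
  have hC : ∀ j k, ∑ i, (if colC i j = 0 then 0 else g (F i j) k) = ∑ i, tab colC i j k := by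
    intro j k
    rw [← h3 j k]
    exact Finset.sum_congr rfl fun i _ => (hF i j k).symm
  have core' := core
  simp only [all3_iff, imp_iff] at core'
  have key := core' (F 2 4) (F 2 5) (F 2 6) (row2 hR) (F 0 4) (col4 hC) (F 4 5) (col5 hC) (F 5 6) (col6 hC) (F
    4 0) (row4 hR) (F 5 2) (row5 hR) (F 6 2) (F 7 2) (col2 hC) (F 6 0) (row6 hR) (F 7 7) (row7
    hR) (F 0 7) (col7 hC) (F 0 0) (F 0 1) (row0 hR) (F 1 0) (col0 hC) (F 1 1) (F 8 1) (F 10 1)
    (col1 hC) (F 8 9) (row8 hR) (F 3 9) (col9 hC) (F 10 3) (row10 hR) (F 1 8) (F 1 11) (row1 hR)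
    (F 3 8) (col8 hC) (F 11 11) (col11 hC) (F 3 10) (row3 hR) (F 9 10) (col10 hC) (F 9 3) (row9
    hR) (F 11 3) (col3 hC) (row11 hR)
  simp only [Bool.or_eq_true, Bool.and_eq_true, beq_iff_eq] at key
  rcases key with (key | key) | key
  · right; right
    apply eq_tab hF (fun i j h => h)
    simp only [edges, List.forall_mem_cons, List.not_mem_nil, IsEmpty.forall_iff, implies_true, key]
    decide +kernel
  · left
    apply eq_tab hF colA_zero
    simp only [edges, List.forall_mem_cons, List.not_mem_nil, IsEmpty.forall_iff, implies_true, key]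
    decide +kernel
  · right; left
    apply eq_tab hF colB_zero
    simp only [edges, List.forall_mem_cons, List.not_mem_nil, IsEmpty.forall_iff, implies_true, key]
    decide +kernel

end Pool.Agent.Helper56Markov
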